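import Pool.Agent.Lib.MP_ce2dd3_lc.Lower

namespace Pool.Agent.Results.MP_ce2dd3_lc.GreedyNotOptimal

open Pool.Agent.Lib.MP_ce2dd3_lc

theorem result (c : ℝ) : ∃ (n : ℕ) (T₀ : BT) (σ : List ℕ),
    keys T₀ = List.range' 1 n ∧ (∀ x ∈ σ, x ∈ keys T₀) ∧ (∃ g, Greedy T₀ σ g) ∧
      ∀ g, Greedy T₀ σ g → c * (OPT σ T₀ : ℝ) + c * (n : ℝ) < (g : ℝ) := by
  obtain ⟨d, hd⟩ := exists_nat_ge c
  obtain ⟨j, hj⟩ : ∃ j, j = 12 * d := ⟨_, rfl⟩
  have ek : keys (spine (List.range' 1 (j + 1)) (ctree (j + 1) (j + 1))) =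
      List.range' 1 (j + 1 + 2 * (j + 1)) := by
    rw [keys_spine, keys_ctree, Nat.add_comm (j + 1) 1, Nat.add_comm j 1, List.range'_append_1]
  have hy : ∀ m i z, z ∈ ys m i → m + 1 ≤ z ∧ z ≤ m + 2 * i := by
    intro m i
    induction i with
    | zero => simp [ys]
    | succ i ih =>
      intro z hz
      simp only [ys, List.mem_cons] at hz
      rcases hz with rfl | hz
      · omega
      · have := ih z hz; omega
  have hσ : ∀ x ∈ ys (j + 1) (j + 1) ++ List.range' 1 (j + 1),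
      x ∈ keys (spine (List.range' 1 (j + 1)) (ctree (j + 1) (j + 1))) := by
    intro x hx
    rw [ek, List.mem_range'_1]
    rcases List.mem_append.1 hx with hx | hx
    · have := hy _ _ _ hx; omega
    · rw [List.mem_range'_1] at hx; omega
  refine ⟨j + 1 + 2 * (j + 1), _, _, ek, hσ,
    exists_greedy _ _ (ek ▸ List.pairwise_lt_range') hσ, fun g hg => ?_⟩
  have h1 := greedy_ge (j + 1) j _ g .base hg
  have h2 := opt_le (j + 1) (by omega)
  generalize OPT _ _ = o at h2 ⊢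
  have h3 : d * (o + (j + 1 + 2 * (j + 1))) < g := by
    have : d * (o + (j + 1 + 2 * (j + 1))) ≤ d * (12 * (j + 1)) := Nat.mul_le_mul_left _ (by omega)
    nlinarith
  rw [← mul_add, ← Nat.cast_add]
  calc c * _ ≤ d * _ := mul_le_mul_of_nonneg_right hd (Nat.cast_nonneg _)
    _ < g := by exact_mod_cast h3

end Pool.Agent.Results.MP_ce2dd3_lc.GreedyNotOptimal
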