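import Pool.Agent.Lib.GR7.Main

namespace Pool.Agent.Results.MP_ce2dd3_lc.GreedyTraversal

open Pool.Agent.Lib.MP_ce2dd3_lc Pool.Agent.Lib.GR7

theorem result : ∃ c : ℕ, ∀ (b : Bool) (n : ℕ) (T₀ T : BT), keys T₀ = List.range' 1 n →
    (keys T).Sublist (keys T₀) → (∃ g, Greedy2 b T₀ (preorder T) g) ∧
      ∀ g, Greedy2 b T₀ (preorder T) g → g ≤ c * n := by
  obtain ⟨c, hc⟩ := main
  exact ⟨c, fun b n T₀ T h0 hT => ⟨exists_greedy2 b _ _ (h0 ▸ List.pairwise_lt_range')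
    fun x hx => hT.subset ((mem_preorder x T).1 hx), hc b n T₀ T h0 hT⟩⟩

end Pool.Agent.Results.MP_ce2dd3_lc.GreedyTraversal
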